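import Pool.Agent.Y723.SJ.Def

/-!
# The Bloch–Kato Selmer group `H¹_f(ℚ, V₂ J)` of a hyperelliptic Jacobian over `ℚ`

`J` is the Jacobian of `y² = ∏ (x - a i)` (`Pool.Agent.Y723.SJ.Def`). `V₂ J = T₂ J ⊗ ℚ₂` is described
by sequences of points: the element `x` corresponds to the sequence of the classes of `2⁻ⁿ x` in
`V₂ J / T₂ J = J[2 ^ ∞]`. The local conditions are given by the images of the local Kummer maps.
(Compare `Pool.Agent.Y667.BK.Def` for elliptic curves.)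
-/

set_option autoImplicit false

namespace Pool.Agent.H96S.BKJ

open Pool.Agent.Y723.SJ

variable {g : ℕ} (a : Fin (2 * g + 1) → ℤ)

/-- The rational Tate module `V₂(J) = T₂(J) ⊗ ℚ₂`: the sequences `x₀, x₁, …` of points of `J` over the
algebraic numbers, of 2-power order, with `2 xₙ₊₁ = xₙ` (`xₙ` is the class of `2⁻ⁿ x` in
`V₂(J) / T₂(J) = J[2 ^ ∞]`). -/
def IsV (x : ℕ → Jac a QB) : Prop :=
  ∀ n, x (n + 1) + x (n + 1) = x n ∧ ∃ m : ℕ, (2 ^ m : ℕ) • x n = 0

/-- `c` is a continuous cocycle with values in `V₂(J)`: each coordinate is locally constant, and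
`c (σ τ) = c σ + σ (c τ)`. -/
def IsCocV (c : GQ → ℕ → Jac a QB) : Prop :=
  (∀ n, IsLocallyConstant fun σ => c σ n) ∧ (∀ σ, IsV a (c σ)) ∧
    ∀ (σ τ : GQ) (n : ℕ), c (σ * τ) n = c σ n + act a σ (c τ n)

/-- `c` is a coboundary: `c σ = σ x - x` with `x` in `V₂(J)`. -/
def IsCobV (c : GQ → ℕ → Jac a QB) : Prop :=
  ∃ x : ℕ → Jac a QB, IsV a x ∧ ∀ (σ : GQ) (n : ℕ), c σ n = act a σ (x n) - x n

/-- The restriction of `c` to the absolute Galois group of the completion `K` of `ℚ` (`K` is `ℚ_p` or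
`ℝ`) is in the image of the Kummer map of `K`: there is a sequence `Q₀, Q₁, …` of points over the
algebraic closure of `K` with `2 Qₙ₊₁ = Qₙ` such that `(c τ)ₙ = τ Qₙ - Qₙ` for all `n` and `τ`. (As
`c` is continuous with values in `V₂(J)`, some multiple `2 ^ m Q₀` is a point over `K`, and the class
of `c` is `2 ^ (-m)` times its image under the Kummer map.) -/
def LocKum (K : Type) [Field K] [Algebra ℚ K] (c : GQ → ℕ → Jac a QB) : Prop :=
  ∀ ι : QB →ₐ[ℚ] AlgebraicClosure K, ∃ Q : ℕ → Jac a (AlgebraicClosure K),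
    (∀ n, Q (n + 1) + Q (n + 1) = Q n) ∧
    ∀ (τ : AlgebraicClosure K ≃ₐ[K] AlgebraicClosure K) (σ : GQ),
      (∀ x : QB, τ (ι x) = ι (σ x)) → ∀ n,
        pointMap a (ι : QB →+* AlgebraicClosure K) (c σ n) =
          pointMap a (τ : AlgebraicClosure K →+* AlgebraicClosure K) (Q n) - Q n

/-- continuous cocycles with values in `V₂(J)` that satisfy the local conditions at all the places
of `ℚ` -/
def IsSelV (c : GQ → ℕ → Jac a QB) : Prop :=
  IsCocV a c ∧ (∀ (p : ℕ) [Fact p.Prime], LocKum a ℚ_[p] c) ∧ LocKum a ℝ c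

variable {a}

lemma isV_zero : IsV a 0 := fun _ => ⟨add_zero _, 0, smul_zero _⟩

lemma isV_add {x y : ℕ → Jac a QB} (hx : IsV a x) (hy : IsV a y) : IsV a (x + y) := by
  intro n
  obtain ⟨h1, m, hm⟩ := hx n
  obtain ⟨h2, l, hl⟩ := hy n
  refine ⟨?_, m + l, ?_⟩
  · simp only [Pi.add_apply]
    rw [← h1, ← h2]
    abel
  · simp only [Pi.add_apply]
    rw [smul_add, pow_add, mul_comm, mul_smul, hm, smul_zero, mul_comm, mul_smul, hl, smul_zero,
      add_zero]

lemma isV_neg {x : ℕ → Jac a QB} (hx : IsV a x) : IsV a (-x) := by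
  intro n
  obtain ⟨h1, m, hm⟩ := hx n
  refine ⟨?_, m, ?_⟩
  · simp only [Pi.neg_apply]
    rw [← h1]
    abel
  · simp only [Pi.neg_apply]
    rw [smul_neg, hm, neg_zero]

lemma cocV_zero : IsCocV a 0 :=
  ⟨fun _ => IsLocallyConstant.const _, fun _ => isV_zero, fun σ τ n => by
    simp only [Pi.zero_apply, act_zero, add_zero]⟩

lemma cocV_add {c d : GQ → ℕ → Jac a QB} (hc : IsCocV a c) (hd : IsCocV a d) :
    IsCocV a (c + d) := by
  obtain ⟨a1, a2, a3⟩ := hc
  obtain ⟨b1, b2, b3⟩ := hd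
  refine ⟨fun n => (a1 n).add (b1 n), fun σ => isV_add (a2 σ) (b2 σ), fun σ τ n => ?_⟩
  simp only [Pi.add_apply, act_add]
  rw [a3, b3]
  abel

lemma cocV_neg {c : GQ → ℕ → Jac a QB} (hc : IsCocV a c) : IsCocV a (-c) := by
  obtain ⟨a1, a2, a3⟩ := hc
  refine ⟨fun n => (a1 n).neg, fun σ => isV_neg (a2 σ), fun σ τ n => ?_⟩
  simp only [Pi.neg_apply, act_neg]
  rw [a3]
  abel

lemma locKum_zero (K : Type) [Field K] [Algebra ℚ K] : LocKum a K 0 :=
  fun ι => ⟨fun _ => 0, fun _ => add_zero 0, fun τ σ _ n => by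
    simp only [Pi.zero_apply, pointMap_zero, sub_zero]⟩

lemma locKum_add {K : Type} [Field K] [Algebra ℚ K] {c d : GQ → ℕ → Jac a QB}
    (hc : LocKum a K c) (hd : LocKum a K d) : LocKum a K (c + d) := by
  intro ι
  obtain ⟨P, hP1, hP2⟩ := hc ι
  obtain ⟨Q, hQ1, hQ2⟩ := hd ι
  refine ⟨fun n => P n + Q n, fun n => ?_, fun τ σ h n => ?_⟩
  · show P (n + 1) + Q (n + 1) + (P (n + 1) + Q (n + 1)) = P n + Q n
    rw [← hP1 n, ← hQ1 n]
    abel
  · simp only [Pi.add_apply, pointMap_add, hP2 τ σ h n, hQ2 τ σ h n]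
    abel

lemma locKum_neg {K : Type} [Field K] [Algebra ℚ K] {c : GQ → ℕ → Jac a QB}
    (hc : LocKum a K c) : LocKum a K (-c) := by
  intro ι
  obtain ⟨P, hP1, hP2⟩ := hc ι
  refine ⟨fun n => -P n, fun n => ?_, fun τ σ h n => ?_⟩
  · show -P (n + 1) + -P (n + 1) = -P n
    rw [← hP1 n]
    abel
  · simp only [Pi.neg_apply, pointMap_neg, hP2 τ σ h n]
    abel

variable (a)

/-- the group of the coboundaries -/
noncomputable def cobV : AddSubgroup (GQ → ℕ → Jac a QB) where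
  carrier := {c | IsCobV a c}
  zero_mem' := ⟨0, isV_zero, fun σ n => by
    simp only [Pi.zero_apply, act_zero, sub_zero]⟩
  add_mem' := by
    rintro c d ⟨x, hx, hc⟩ ⟨y, hy, hd⟩
    refine ⟨x + y, isV_add hx hy, fun σ n => ?_⟩
    simp only [Pi.add_apply, act_add]
    rw [hc, hd]
    abel
  neg_mem' := by
    rintro c ⟨x, hx, hc⟩
    refine ⟨-x, isV_neg hx, fun σ n => ?_⟩
    simp only [Pi.neg_apply, act_neg]
    rw [hc]
    abel

/-- the group of the continuous cocycles with values in `V₂(J)` that satisfy the local conditions -/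
noncomputable def selV : AddSubgroup (GQ → ℕ → Jac a QB) where
  carrier := {c | IsSelV a c}
  zero_mem' := ⟨cocV_zero, fun _ _ => locKum_zero _, locKum_zero _⟩
  add_mem' := fun ⟨a1, a2, a3⟩ ⟨b1, b2, b3⟩ =>
    ⟨cocV_add a1 b1, fun p _ => locKum_add (a2 p) (b2 p), locKum_add a3 b3⟩
  neg_mem' := fun ⟨a1, a2, a3⟩ =>
    ⟨cocV_neg a1, fun p _ => locKum_neg (a2 p), locKum_neg a3⟩

/-- The Bloch–Kato Selmer group `H¹_f(ℚ, V₂(J))`. -/
def H1f : Type := selV a ⧸ (cobV a).addSubgroupOf (selV a)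

noncomputable instance H1f.group : AddCommGroup (H1f a) :=
  QuotientAddGroup.Quotient.addCommGroup _

end Pool.Agent.H96S.BKJ
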