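import Pool.Agent.H96S.BKJ.Def

/-!
# The Bloch–Kato Selmer group of a Jacobian with `2 J(ℚ) = 4 J(ℚ)` and `Ш(J)[2 ^ ∞] = 0` is zero
-/

set_option autoImplicit false

namespace Pool.Agent.H96S.BKJ

section abs

variable {A G : Type*} [AddCommGroup A] (a : G → A →+ A)

/-- the fixed points -/
def Fx : AddSubgroup A where
  carrier := {P | ∀ σ, a σ P = P}
  zero_mem' := fun σ => map_zero _
  add_mem' := fun {x y} hx hy σ => by rw [map_add, hx σ, hy σ]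
  neg_mem' := fun {x} hx σ => by rw [map_neg, hx σ]

lemma div_pow (h4 : ∀ P ∈ Fx a, ∃ Q ∈ Fx a, (4 : ℕ) • Q = (2 : ℕ) • P) (k : ℕ) :
    ∀ Q ∈ Fx a, ∃ R ∈ Fx a, (2 ^ (k + 1) : ℕ) • R = (2 : ℕ) • Q := by
  induction k with
  | zero => exact fun Q hQ => ⟨Q, hQ, by simp⟩
  | succ k ih =>
    intro Q hQ
    obtain ⟨R, hR, h1⟩ := ih Q hQ
    obtain ⟨R', hR', h2⟩ := h4 R hR
    refine ⟨R', hR', ?_⟩
    rw [← h1, pow_succ 2 k, mul_smul, ← h2, smul_smul]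
    congr 1
    ring

lemma two_prim (h4 : ∀ P ∈ Fx a, ∃ Q ∈ Fx a, (4 : ℕ) • Q = (2 : ℕ) • P) (c : G → A) (K : ℕ)
    (hK : ∀ σ, (2 ^ K : ℕ) • c σ = 0) (hcob : ∃ P, ∀ σ, c σ = a σ P - P) :
    ∃ P, (∃ m : ℕ, (2 ^ m : ℕ) • P = 0) ∧ ∀ σ, c σ = a σ P - P := by
  obtain ⟨P0, hP0⟩ := hcob
  have hQ : (2 ^ K : ℕ) • P0 ∈ Fx a := by
    intro σ
    rw [map_nsmul, ← sub_eq_zero, ← nsmul_sub, ← hP0, hK]
  obtain ⟨R, hR, h1⟩ := div_pow a h4 K _ hQ
  refine ⟨P0 - R, ⟨K + 1, ?_⟩, fun σ => ?_⟩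
  · rw [nsmul_sub, h1, smul_smul, pow_succ, mul_comm, sub_self]
  · rw [map_sub, hR σ, hP0]
    abel

/-- **Lifting lemma** (the inverse system satisfies the Mittag-Leffler condition). -/
theorem lift (h4 : ∀ P ∈ Fx a, ∃ Q ∈ Fx a, (4 : ℕ) • Q = (2 : ℕ) • P) (c : G → ℕ → A)
    (hc : ∀ σ n, c σ (n + 1) + c σ (n + 1) = c σ n)
    (htor : ∀ n, ∃ K : ℕ, ∀ σ, (2 ^ K : ℕ) • c σ n = 0)
    (hcob : ∀ n, ∃ P, ∀ σ, c σ n = a σ P - P) :
    ∃ x : ℕ → A, (∀ n, x (n + 1) + x (n + 1) = x n ∧ ∃ m : ℕ, (2 ^ m : ℕ) • x n = 0) ∧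
      ∀ σ n, c σ n = a σ (x n) - x n := by
  have hne : ∀ n, ∃ P, (∃ m : ℕ, (2 ^ m : ℕ) • P = 0) ∧ ∀ σ, c σ n = a σ P - P := by
    intro n
    obtain ⟨K, hK⟩ := htor n
    exact two_prim a h4 (fun σ => c σ n) K hK (hcob n)
  choose P hP1 hP2 using hne
  have htorP : ∀ n, ∃ m : ℕ, (2 ^ m : ℕ) • (P (n + 1) + P (n + 1) - P n) = 0 := by
    intro n
    obtain ⟨m1, h1⟩ := hP1 (n + 1)
    obtain ⟨m2, h2⟩ := hP1 n
    refine ⟨m1 + m2, ?_⟩
    have e1 : (2 ^ (m1 + m2) : ℕ) • P (n + 1) = 0 := by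
      rw [pow_add, mul_comm, mul_smul, h1, smul_zero]
    have e2 : (2 ^ (m1 + m2) : ℕ) • P n = 0 := by
      rw [pow_add, mul_smul, h2, smul_zero]
    rw [nsmul_sub, nsmul_add, e1, e2]
    simp
  have hfix : ∀ n, P (n + 1) + P (n + 1) - P n ∈ Fx a := by
    intro n σ
    have h1 := hP2 (n + 1) σ
    have h2 := hP2 n σ
    have h3 := hc σ n
    rw [h1, h2] at h3
    rw [map_sub, map_add, ← sub_eq_zero]
    rw [← sub_eq_zero] at h3
    rw [← h3]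
    abel
  -- the divisible part of the fixed points of 2-power order
  let E : Type _ := {d : A // (∃ e ∈ Fx a, e + e = d) ∧ ∃ m : ℕ, (2 ^ m : ℕ) • d = 0}
  have step : ∀ (n : ℕ) (d : E), ∃ d' : E,
      d'.1 + d'.1 = d.1 - ((P (n + 2) + P (n + 2) - P (n + 1)) +
        (P (n + 2) + P (n + 2) - P (n + 1))) := by
    intro n d
    obtain ⟨d, ⟨e, he, hed⟩, m, hm⟩ := d
    obtain ⟨m', hm'⟩ := htorP (n + 1)
    have ht := hfix (n + 1)
    obtain ⟨t, htt⟩ : ∃ t, t = P (n + 2) + P (n + 2) - P (n + 1) := ⟨_, rfl⟩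
    have ht' : t ∈ Fx a := by rw [htt]; exact ht
    have hm2 : (2 ^ m' : ℕ) • t = 0 := by rw [htt]; exact hm'
    obtain ⟨f, hf, hf4⟩ := h4 (e - t) (AddSubgroup.sub_mem _ he ht')
    rw [← htt]
    have hval : (f + f) + (f + f) = d - (t + t) := by
      have : (4 : ℕ) • f = (f + f) + (f + f) := by
        rw [show (4 : ℕ) = 2 * 2 from rfl, mul_smul, two_nsmul, two_nsmul]
      rw [← this, hf4, two_nsmul, ← hed]
      abel
    refine ⟨⟨f + f, ⟨f, hf, rfl⟩, m + m' + 1, ?_⟩, hval⟩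
    have e1 : (2 ^ (m + m') : ℕ) • d = 0 := by
      rw [pow_add, mul_comm, mul_smul, hm, smul_zero]
    have e2 : (2 ^ (m + m') : ℕ) • t = 0 := by
      rw [pow_add, mul_smul, hm2, smul_zero]
    rw [pow_succ, mul_smul, two_nsmul, hval, nsmul_sub, nsmul_add, e1, e2]
    simp
  choose F hF using step
  let D : ℕ → E := fun n => Nat.rec ⟨0, ⟨0, AddSubgroup.zero_mem _, add_zero 0⟩, 0, smul_zero _⟩
    (fun n d => F n d) n
  have hD : ∀ n, (D (n + 1)).1 + (D (n + 1)).1 = (D n).1 -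
      ((P (n + 2) + P (n + 2) - P (n + 1)) + (P (n + 2) + P (n + 2) - P (n + 1))) :=
    fun n => hF n (D n)
  have hDfix : ∀ n, (D n).1 ∈ Fx a := by
    intro n
    obtain ⟨e, he, hed⟩ := (D n).2.1
    rw [← hed]
    exact AddSubgroup.add_mem _ he he
  refine ⟨fun n => P n + (P (n + 1) + P (n + 1) - P n) + (D n).1, fun n => ⟨?_, ?_⟩,
    fun σ n => ?_⟩
  · have h1 := hD n
    have h2 : (D n).1 = (D (n + 1)).1 + (D (n + 1)).1 +
        ((P (n + 2) + P (n + 2) - P (n + 1)) + (P (n + 2) + P (n + 2) - P (n + 1))) := by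
      rw [h1]
      abel
    show P (n + 1) + (P (n + 2) + P (n + 2) - P (n + 1)) + (D (n + 1)).1 +
      (P (n + 1) + (P (n + 2) + P (n + 2) - P (n + 1)) + (D (n + 1)).1) =
      P n + (P (n + 1) + P (n + 1) - P n) + (D n).1
    rw [h2]
    abel
  · obtain ⟨m1, h1⟩ := hP1 n
    obtain ⟨m2, h2⟩ := htorP n
    obtain ⟨m3, h3⟩ := (D n).2.2
    refine ⟨m1 + m2 + m3, ?_⟩
    have e1 : (2 ^ (m1 + m2 + m3) : ℕ) • P n = 0 := by
      rw [show (2 : ℕ) ^ (m1 + m2 + m3) = 2 ^ (m2 + m3) * 2 ^ m1 by ring, mul_smul, h1, smul_zero]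
    have e2 : (2 ^ (m1 + m2 + m3) : ℕ) • (P (n + 1) + P (n + 1) - P n) = 0 := by
      rw [show (2 : ℕ) ^ (m1 + m2 + m3) = 2 ^ (m1 + m3) * 2 ^ m2 by ring, mul_smul, h2, smul_zero]
    have e3 : (2 ^ (m1 + m2 + m3) : ℕ) • (D n).1 = 0 := by
      rw [show (2 : ℕ) ^ (m1 + m2 + m3) = 2 ^ (m1 + m2) * 2 ^ m3 by ring, mul_smul, h3, smul_zero]
    show (2 ^ (m1 + m2 + m3) : ℕ) • (P n + (P (n + 1) + P (n + 1) - P n) + (D n).1) = 0
    rw [nsmul_add, nsmul_add, e1, e2, e3]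
    simp
  · show c σ n = a σ (P n + (P (n + 1) + P (n + 1) - P n) + (D n).1) -
      (P n + (P (n + 1) + P (n + 1) - P n) + (D n).1)
    rw [map_add, map_add, hfix n σ, hDfix n σ, hP2 n σ]
    abel

end abs

open Pool.Agent.Y723.SJ

variable {g : ℕ} {a : Fin (2 * g + 1) → ℤ}

/-- the coordinates of a Selmer cocycle are cocycles of `Ш` -/
lemma coord_sha {c : GQ → ℕ → Jac a QB} (hc : IsSelV a c) (n : ℕ) :
    (fun σ => c σ n) ∈ shaCocycles a := by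
  obtain ⟨⟨h1, h2, h3⟩, h4, h5⟩ := hc
  refine ⟨⟨h1 n, fun σ τ => h3 σ τ n⟩, fun p _ ι => ?_, fun ι => ?_⟩
  · obtain ⟨Q, -, hQ⟩ := h4 p ι
    exact ⟨Q n, fun τ σ hσ => hQ τ σ hσ n⟩
  · obtain ⟨Q, -, hQ⟩ := h5 ι
    exact ⟨Q n, fun τ σ hσ => hQ τ σ hσ n⟩

theorem galQB : IsGalois ℚ QB := by
  have h : @IsGalois ℚ _ QB _ (AlgebraicClosure.instAlgebra ℚ) := inferInstance
  convert h
  exact Subsingleton.elim _ _

/-- a continuous cocycle with values in `V₂` is bounded in every coordinate -/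
lemma coord_tor {c : GQ → ℕ → Jac a QB} (hc : IsCocV a c) (n : ℕ) :
    ∃ K : ℕ, ∀ σ, (2 ^ K : ℕ) • c σ n = 0 := by
  have := galQB
  have hfin : (Set.range fun σ => c σ n).Finite := (hc.1 n).range_finite
  choose m hm using fun σ => (hc.2.1 σ n).2
  have hex : ∀ y ∈ Set.range (fun σ => c σ n), ∃ k : ℕ, (2 ^ k : ℕ) • y = 0 := by
    rintro y ⟨σ, rfl⟩
    exact ⟨m σ, hm σ⟩
  choose! k hk using hex
  obtain ⟨K, hK⟩ := (hfin.image k).bddAbove
  refine ⟨K, fun σ => ?_⟩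
  have h1 := hk _ (Set.mem_range_self σ)
  have h2 : k (c σ n) ≤ K := hK ⟨_, Set.mem_range_self σ, rfl⟩
  rw [← Nat.sub_add_cancel h2, pow_add, mul_smul, h1, smul_zero]

/-- the action as homomorphisms -/
noncomputable def actH (a : Fin (2 * g + 1) → ℤ) (σ : GQ) : Jac a QB →+ Jac a QB :=
  AddMonoidHom.mk' (act a σ) (act_add a σ)

/-- `2 J(ℚ) = 4 J(ℚ)` from the cardinalities of the quotients -/
lemma div_of_card (N : ℕ) (hN : N ≠ 0) (h2 : Nat.card (QuotQ a 2) = N)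
    (h4 : Nat.card (QuotQ a 4) = N) :
    ∀ P ∈ Fx (actH a), ∃ Q ∈ Fx (actH a), (4 : ℕ) • Q = (2 : ℕ) • P := by
  have hle : (nsmulAddMonoidHom 4 : JacQ a →+ JacQ a).range ≤
      (nsmulAddMonoidHom 2 : JacQ a →+ JacQ a).range := by
    rintro x ⟨y, rfl⟩
    refine ⟨(2 : ℕ) • y, ?_⟩
    show (2 : ℕ) • ((2 : ℕ) • y) = (4 : ℕ) • y
    rw [smul_smul]
    rfl
  let π : QuotQ a 4 → QuotQ a 2 := QuotientAddGroup.map _ _ (AddMonoidHom.id _) (by
    intro x hx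
    exact hle hx)
  have hsurj : Function.Surjective π := by
    intro y
    obtain ⟨x, rfl⟩ := QuotientAddGroup.mk_surjective y
    exact ⟨QuotientAddGroup.mk x, rfl⟩
  have : Finite (QuotQ a 4) := Nat.finite_of_card_ne_zero (by rw [h4]; exact hN)
  have hinj : Function.Injective π := by
    have hb : Function.Bijective π :=
      (Nat.bijective_iff_surjective_and_card π).2 ⟨hsurj, by rw [h2, h4]⟩
    exact hb.1
  intro P hP
  let x : JacQ a := ⟨P, hP⟩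
  have h1 : π (QuotientAddGroup.mk ((2 : ℕ) • x)) = π (QuotientAddGroup.mk 0) := by
    show (QuotientAddGroup.mk ((2 : ℕ) • x) : JacQ a ⧸ (nsmulAddMonoidHom 2 : JacQ a →+ JacQ a).range)
      = QuotientAddGroup.mk 0
    rw [QuotientAddGroup.eq]
    refine ⟨-x, ?_⟩
    show (2 : ℕ) • (-x) = -((2 : ℕ) • x) + 0
    rw [smul_neg, add_zero]
  have h3 := hinj h1
  have h5 : (QuotientAddGroup.mk ((2 : ℕ) • x) :
      JacQ a ⧸ (nsmulAddMonoidHom 4 : JacQ a →+ JacQ a).range) = QuotientAddGroup.mk 0 := h3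
  rw [QuotientAddGroup.eq] at h5
  obtain ⟨y, hy⟩ := h5
  have h6 : (4 : ℕ) • y = -((2 : ℕ) • x) + 0 := hy
  refine ⟨-y.1, AddSubgroup.neg_mem _ y.2, ?_⟩
  have h7 : (4 : ℕ) • (-y) = (2 : ℕ) • x := by
    rw [smul_neg, h6]
    abel
  have h8 := congrArg Subtype.val h7
  exact h8

/-- **The Bloch–Kato Selmer group is zero.** -/
theorem h1f_zero (h4 : ∀ P ∈ Fx (actH a), ∃ Q ∈ Fx (actH a), (4 : ℕ) • Q = (2 : ℕ) • P)
    (hS : ∀ (k : ℕ) (x : Sha a), (2 ^ k : ℕ) • x = 0 → x = 0) : ∀ x : H1f a, x = 0 := by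
  intro x
  obtain ⟨⟨c, hc⟩, rfl⟩ := QuotientAddGroup.mk_surjective x
  refine (QuotientAddGroup.eq_zero_iff _).2 ?_
  rw [AddSubgroup.mem_addSubgroupOf]
  have hc' : IsSelV a c := hc
  have hcob : ∀ n, ∃ P, ∀ σ : GQ, c σ n = actH a σ P - P := by
    intro n
    obtain ⟨K, hK⟩ := coord_tor hc'.1 n
    obtain ⟨f, hf⟩ : ∃ f : shaCocycles a, f.1 = fun σ => c σ n := ⟨⟨_, coord_sha hc' n⟩, rfl⟩
    have h0 : (2 ^ K : ℕ) • f = 0 := by
      apply Subtype.ext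
      rw [AddSubgroup.coe_nsmul, hf]
      funext σ
      exact hK σ
    have h1 : (2 ^ K : ℕ) • (QuotientAddGroup.mk f : Sha a) = 0 := by
      have := QuotientAddGroup.mk_nsmul ((coboundaries a).addSubgroupOf (shaCocycles a)) f (2 ^ K)
      rw [h0] at this
      exact this.symm
    have h2 := hS K _ h1
    have h3 := (QuotientAddGroup.eq_zero_iff _).1 h2
    rw [AddSubgroup.mem_addSubgroupOf] at h3
    obtain ⟨P, hP⟩ := h3
    refine ⟨P, fun σ => ?_⟩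
    have := hP σ
    rw [hf] at this
    exact this
  obtain ⟨x, hx1, hx2⟩ := lift (actH a) h4 c
    (fun σ n => (hc'.1.2.1 σ n).1) (fun n => coord_tor hc'.1 n) hcob
  exact ⟨x, hx1, hx2⟩

/-- a finitely generated group `A` with `2 A = 4 A` satisfies `A ⊗ ℚ₂ = 0` -/
theorem tz {A : Type} [AddCommGroup A] (h4 : ∀ P : A, ∃ Q : A, (4 : ℕ) • Q = (2 : ℕ) • P)
    (hfg : AddGroup.FG A) : ∀ x : TensorProduct ℤ A ℚ_[2], x = 0 := by
  have : Module.Finite ℤ A := Module.Finite.iff_addGroup_fg.2 hfg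
  let N : Submodule ℤ A := LinearMap.range (LinearMap.lsmul ℤ A (2 : ℤ))
  have hN : N.FG := by
    have := (Module.Finite.fg_top (R := ℤ) (M := A)).map (LinearMap.lsmul ℤ A (2 : ℤ))
    rwa [Submodule.map_top] at this
  have hle : N ≤ (Ideal.span {(2 : ℤ)}) • N := by
    rintro _ ⟨y, rfl⟩
    obtain ⟨z, hz⟩ := h4 y
    have h1 : (LinearMap.lsmul ℤ A (2 : ℤ)) y = (2 : ℤ) • ((LinearMap.lsmul ℤ A (2 : ℤ)) z) := by
      simp only [LinearMap.lsmul_apply]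
      rw [smul_smul]
      have h2 : ((2 : ℤ) • y : A) = (2 : ℕ) • y := by
        rw [← natCast_zsmul]; rfl
      have h3 : (((2 : ℤ) * 2) • z : A) = (4 : ℕ) • z := by
        rw [← natCast_zsmul]; norm_num
      rw [h2, h3, hz]
    rw [h1]
    exact Submodule.smul_mem_smul (Ideal.mem_span_singleton_self _) ⟨z, rfl⟩
  obtain ⟨r, hr1, hr2⟩ := Submodule.exists_sub_one_mem_and_smul_eq_zero_of_fg_of_le_smul
    (Ideal.span {(2 : ℤ)}) N hN hle
  have hr0 : r ≠ 0 := by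
    rintro rfl
    rw [Ideal.mem_span_singleton] at hr1
    omega
  have hkill : ∀ y : A, (r * 2) • y = 0 := by
    intro y
    rw [mul_smul]
    exact hr2 _ ⟨y, rfl⟩
  intro x
  induction x using TensorProduct.induction_on with
  | zero => rfl
  | tmul y q =>
    have h2 : ((r * 2 : ℤ) : ℚ_[2]) ≠ 0 := by
      exact_mod_cast mul_ne_zero hr0 two_ne_zero
    have h3 : q = (r * 2 : ℤ) • (q / ((r * 2 : ℤ) : ℚ_[2])) := by
      rw [zsmul_eq_mul]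
      field_simp
    rw [h3, TensorProduct.tmul_smul, TensorProduct.smul_tmul', hkill, TensorProduct.zero_tmul]
  | add x y hx hy => rw [hx, hy, add_zero]

/-- the group of the rational points tensored with `ℚ₂` is zero if it is finitely generated -/
theorem tensor_zero (h4 : ∀ P ∈ Fx (actH a), ∃ Q ∈ Fx (actH a), (4 : ℕ) • Q = (2 : ℕ) • P)
    (hfg : AddGroup.FG (JacQ a)) : ∀ x : TensorProduct ℤ (JacQ a) ℚ_[2], x = 0 := by
  refine tz (fun P => ?_) hfg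
  obtain ⟨Q, hQ, h⟩ := h4 P.1 P.2
  exact ⟨⟨Q, hQ⟩, Subtype.ext h⟩

end Pool.Agent.H96S.BKJ
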